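import Pool.Agent.E8helper27.Sow.Defs

/-!
# Project SW, piece TRANS: transitivity of equality of values
-/

namespace Pool.Agent.E8helper13.SW

open SowingH27

section general

variable {α β γ : Type}

/-- Left moves first and wins, making at most `n` moves after the first one. -/
def LF (A : Arena α) (n : ℕ) (u : α) : Prop := ∃ v, A.L u v ∧ A.LeftSecond n v

theorem ls_mono (A : Arena α) : ∀ (n : ℕ) (u : α), A.LeftSecond n u → A.LeftSecond (n + 1) u
  | 0, u, h => by
      intro y hy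
      exact absurd hy (h y)
  | n + 1, u, h => by
      intro y hy
      obtain ⟨z, hz, hn⟩ := h y hy
      exact ⟨z, hz, ls_mono A n z hn⟩

theorem lf_mono (A : Arena α) (n : ℕ) (u : α) (h : LF A n u) : LF A (n + 1) u := by
  obtain ⟨v, hv, hn⟩ := h
  exact ⟨v, hv, ls_mono A n v hn⟩

theorem ls_right (A : Arena α) {n : ℕ} {u y : α} (h : A.LeftSecond n u) (hy : A.R u y) :
    ∃ k, n = k + 1 ∧ LF A k y := by
  cases n with
  | zero => exact absurd hy (h y)
  | succ k => exact ⟨k, rfl, h y hy⟩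

theorem ls_of (A : Arena α) {n : ℕ} {u : α} (h : ∀ y, A.R u y → ∃ k, n = k + 1 ∧ LF A k y) :
    A.LeftSecond n u := by
  cases n with
  | zero =>
      intro y hy
      obtain ⟨k, hk, _⟩ := h y hy
      omega
  | succ n =>
      intro y hy
      obtain ⟨k, hk, hl⟩ := h y hy
      have : k = n := by omega
      subst this
      exact hl

theorem main (A : Arena α) (B : Arena β) (C : Arena γ) : ∀ s : ℕ,
    (∀ m n : ℕ, m + n = s → ∀ x y z, (A.sub B).LeftSecond m (x, y) →
      (B.sub C).LeftSecond n (y, z) → (A.sub C).LeftSecond s (x, z)) ∧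
    (∀ m n : ℕ, m + n = s → ∀ x y z, LF (A.sub B) m (x, y) →
      (B.sub C).LeftSecond n (y, z) → LF (A.sub C) s (x, z)) ∧
    (∀ m n : ℕ, m + n = s → ∀ x y z, (A.sub B).LeftSecond m (x, y) →
      LF (B.sub C) n (y, z) → LF (A.sub C) s (x, z)) := by
  intro s
  induction s using Nat.strong_induction_on with
  | _ s ih =>
  have hA : ∀ m n : ℕ, m + n = s → ∀ x y z, (A.sub B).LeftSecond m (x, y) →
      (B.sub C).LeftSecond n (y, z) → (A.sub C).LeftSecond s (x, z) := by
    intro m n hmn x y z h1 h2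
    apply ls_of
    rintro ⟨x', z'⟩ hw
    rcases hw with ⟨hx, hz⟩ | ⟨hx, hz⟩
    · simp only at hx hz
      subst hz
      have hR : (A.sub B).R (x, y) (x', y) := Or.inl ⟨hx, rfl⟩
      obtain ⟨k, hk, hl⟩ := ls_right _ h1 hR
      refine ⟨k + n, by omega, ?_⟩
      exact (ih (k + n) (by omega)).2.1 k n rfl x' y z' hl h2
    · simp only at hx hz
      subst hx
      have hR : (B.sub C).R (y, z) (y, z') := Or.inr ⟨rfl, hz⟩
      obtain ⟨k, hk, hl⟩ := ls_right _ h2 hR
      refine ⟨m + k, by omega, ?_⟩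
      exact (ih (m + k) (by omega)).2.2 m k rfl x' y z' h1 hl
  refine ⟨hA, ?_, ?_⟩
  · intro m n hmn x y z h1 h2
    obtain ⟨⟨x', y'⟩, hv, hl⟩ := h1
    rcases hv with ⟨hx, hy⟩ | ⟨hx, hy⟩
    · simp only at hx hy
      subst hy
      exact ⟨(x', z), Or.inl ⟨hx, rfl⟩, hA m n hmn x' y' z hl h2⟩
    · simp only at hx hy
      subst hx
      have hR : (B.sub C).R (y, z) (y', z) := Or.inl ⟨hy, rfl⟩
      obtain ⟨k, hk, hl2⟩ := ls_right _ h2 hR
      have h3 := (ih (m + k) (by omega)).2.2 m k rfl x' y' z hl hl2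
      have h4 := lf_mono _ _ _ h3
      have : m + k + 1 = s := by omega
      rwa [this] at h4
  · intro m n hmn x y z h1 h2
    obtain ⟨⟨y', z'⟩, hv, hl⟩ := h2
    rcases hv with ⟨hy, hz⟩ | ⟨hy, hz⟩
    · simp only at hy hz
      subst hz
      have hR : (A.sub B).R (x, y) (x, y') := Or.inr ⟨rfl, hy⟩
      obtain ⟨k, hk, hl2⟩ := ls_right _ h1 hR
      have h3 := (ih (k + n) (by omega)).2.1 k n rfl x y' z' hl2 hl
      have h4 := lf_mono _ _ _ h3
      have : k + n + 1 = s := by omega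
      rwa [this] at h4
    · simp only at hy hz
      subst hy
      exact ⟨(x, z'), Or.inr ⟨rfl, hz⟩, hA m n hmn x y' z' h1 hl⟩

/-- The same ruleset with the players exchanged. -/
def sw (A : Arena α) : Arena α := ⟨A.R, A.L⟩

theorem sw_ls (A : Arena α) : ∀ (n : ℕ) (u : α), (sw A).LeftSecond n u ↔ A.RightSecond n u
  | 0, u => Iff.rfl
  | n + 1, u => by
      constructor
      · intro h y hy
        obtain ⟨z, hz, hn⟩ := h y hy
        exact ⟨z, hz, (sw_ls A n z).1 hn⟩
      · intro h y hy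
        obtain ⟨z, hz, hn⟩ := h y hy
        exact ⟨z, hz, (sw_ls A n z).2 hn⟩

theorem sw_sub (A : Arena α) (B : Arena β) : (sw A).sub (sw B) = sw (A.sub B) := rfl

/-- Equality of values is transitive, for any rulesets. -/
theorem equal_trans (A : Arena α) (B : Arena β) (C : Arena γ) (x : α) (y : β) (z : γ)
    (h1 : Equal A x B y) (h2 : Equal B y C z) : Equal A x C z := by
  obtain ⟨⟨m, hm⟩, ⟨m', hm'⟩⟩ := h1
  obtain ⟨⟨n, hn⟩, ⟨n', hn'⟩⟩ := h2
  refine ⟨⟨m + n, (main A B C (m + n)).1 m n rfl x y z hm hn⟩, ⟨m' + n', ?_⟩⟩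
  rw [← sw_ls, ← sw_sub] at hm' hn' ⊢
  exact (main (sw A) (sw B) (sw C) (m' + n')).1 m' n' rfl x y z hm' hn'

end general

theorem t_TRANS : S_TRANS := by
  intro p Gs Hs h1 h2
  exact ⟨h1.1, equal_trans _ _ _ _ _ _ h1.2 h2⟩

end Pool.Agent.E8helper13.SW
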